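import Mathlib
import Pool.Agent.Helper99.BK.Stmts

set_option autoImplicit false

/-! # Module AN1 -/

namespace Pool.Helper99.BK

theorem st_AN1 : ST_AN1 := by
  intro ι _ _ M hM I W hW
  have hli : LinearIndependent ℂ (fun j : ι => fun p => M p j) :=
    Matrix.linearIndependent_cols_of_det_ne_zero hM
  have h1 : LinearIndependent ℂ (fun j : I => fun p => M p j) :=
    hli.comp (fun j : I => (j : ι)) Subtype.val_injective
  have h2 : LinearIndependent ℂ (fun j : I => (⟨fun p => M p j, hW j j.2⟩ : W)) := by
    apply LinearIndependent.of_comp W.subtype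
    exact h1
  have h3 := h2.fintype_card_le_finrank
  simpa using h3

end Pool.Helper99.BK
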