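import Mathlib
import Pool.Agent.Helper99.BK.Stmts

set_option autoImplicit false

/-! # Module CM -/

namespace Pool.Helper99.BK

open NumberField

/-- the numerical choice of the parameters -/
theorem cm_num (C3 Cm : ℝ) (hC3 : 1 ≤ C3) (hCm : 1 ≤ Cm) (H S ν h s W y C5 X l U Z : ℝ)
    (hH : 3 ≤ H) (hS : 3 ≤ S) (hν : 1 ≤ ν) (hνH : ν ≤ H ^ 4)
    (eh : h = Real.log H) (es : s = Real.log S) (eW : W = h + s) (ey : y = C3 + Cm + 1)
    (eC5 : C5 = 1000 * y) (eX : X = C3 * ν * (100 * h) * h ^ 2) (el : l = C5 * W)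
    (eU : U = Cm * X * l ^ 6) (eZ : Z = C3 * (1 + S) * U) :
    1 ≤ h ∧ 1 ≤ s ∧ 1 ≤ X ∧ 1 ≤ l ∧ 1 ≤ U ∧ 1 ≤ Z ∧ Real.log X ≤ l ∧ Real.log Z ≤ l ∧
      C3 * (100 * h + h) ≤ U / 6 ∧ h ≤ U := by
  have hlog3 : (1 : ℝ) ≤ Real.log 3 := by
    rw [Real.le_log_iff_exp_le (by norm_num)]
    have := Real.exp_one_lt_d9
    linarith
  have h1 : 1 ≤ h := by
    rw [eh]
    exact hlog3.trans (Real.log_le_log (by norm_num) hH)
  have s1 : 1 ≤ s := by
    rw [es]
    exact hlog3.trans (Real.log_le_log (by norm_num) hS)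
  have W2 : 2 ≤ W := by rw [eW]; linarith
  have y3 : 3 ≤ y := by rw [ey]; linarith
  have C51 : 3000 ≤ C5 := by rw [eC5]; linarith
  have hh2 : 1 ≤ h ^ 2 := one_le_pow₀ h1
  have X100 : 100 * (C3 * h) ≤ X := by
    rw [eX]
    have e1 : C3 * ν * (100 * h) * h ^ 2 = (100 * (C3 * h)) * (ν * h ^ 2) := by ring
    rw [e1]
    have : 1 ≤ ν * h ^ 2 := one_le_mul_of_one_le_of_one_le hν hh2
    exact le_mul_of_one_le_right (by positivity) this
  have hCh : 1 ≤ C3 * h := one_le_mul_of_one_le_of_one_le hC3 h1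
  have X1 : 1 ≤ X := by linarith
  have l1 : 6000 ≤ l := by
    rw [el]
    calc (6000 : ℝ) = 3000 * 2 := by norm_num
      _ ≤ C5 * W := mul_le_mul C51 W2 (by norm_num) (by linarith)
  have l6 : 6000 ≤ l ^ 6 := by
    calc (6000 : ℝ) ≤ l := l1
      _ ≤ l ^ 6 := le_self_pow₀ (by linarith) (by norm_num)
  have UX : 6000 * X ≤ U := by
    rw [eU]
    have : 1 * X ≤ Cm * X := mul_le_mul_of_nonneg_right hCm (by linarith)
    calc 6000 * X = (1 * X) * 6000 := by ring
      _ ≤ (Cm * X) * l ^ 6 := mul_le_mul this l6 (by norm_num) (by positivity)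
  have U1 : 1 ≤ U := by linarith
  have hZ1 : 1 ≤ Z := by
    rw [eZ]
    have : 1 ≤ C3 * (1 + S) := one_le_mul_of_one_le_of_one_le hC3 (by linarith)
    exact one_le_mul_of_one_le_of_one_le this U1
  -- logarithm of X
  have hν0 : 0 < ν := by linarith
  have hlogν : Real.log ν ≤ 4 * h := by
    have := Real.log_le_log hν0 hνH
    rw [Real.log_pow, ← eh] at this
    exact_mod_cast this
  have hlogh : Real.log h ≤ h := by
    have := Real.log_le_sub_one_of_pos (by linarith : 0 < h)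
    linarith
  have hlogC3 : Real.log C3 ≤ C3 := by
    have := Real.log_le_sub_one_of_pos (by linarith : 0 < C3)
    linarith
  have hlogCm : Real.log Cm ≤ Cm := by
    have := Real.log_le_sub_one_of_pos (by linarith : 0 < Cm)
    linarith
  have hlog100 : Real.log 100 ≤ 99 := by
    have := Real.log_le_sub_one_of_pos (by norm_num : (0 : ℝ) < 100)
    linarith
  have hC30 : C3 ≠ 0 := by positivity
  have hCm0 : Cm ≠ 0 := by positivity
  have hh0 : h ≠ 0 := by positivity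
  have hlogX : Real.log X ≤ C3 + 99 + 7 * h := by
    have : Real.log X = Real.log C3 + Real.log ν + (Real.log 100 + Real.log h) +
        2 * Real.log h := by
      rw [eX, Real.log_mul (by positivity) (by positivity), Real.log_mul (by positivity)
        (by positivity), Real.log_mul (by positivity) (by positivity), Real.log_mul (by norm_num)
        (by positivity), Real.log_pow]
      norm_num
    rw [this]
    linarith
  have hlogy : Real.log y ≤ y := by
    have := Real.log_le_sub_one_of_pos (by linarith : 0 < y)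
    linarith
  have hlog1000 : Real.log 1000 ≤ 7 := by
    rw [Real.log_le_iff_le_exp (by norm_num)]
    have := Real.exp_one_gt_d9
    calc (1000 : ℝ) ≤ 2.7182818283 ^ 7 := by norm_num
      _ ≤ (Real.exp 1) ^ 7 := pow_le_pow_left₀ (by norm_num) this.le 7
      _ = Real.exp 7 := by rw [← Real.exp_nat_mul]; norm_num
  have hlogC5 : Real.log C5 ≤ 7 + y := by
    rw [eC5, Real.log_mul (by norm_num) (by linarith)]
    linarith
  have hlogW : Real.log W ≤ W := by
    have := Real.log_le_sub_one_of_pos (by linarith : 0 < W)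
    linarith
  have hlogl : Real.log l ≤ 7 + y + W := by
    rw [el, Real.log_mul (by linarith) (by linarith)]
    linarith
  have hlogU : Real.log U ≤ Cm + (C3 + 99 + 7 * h) + 6 * (7 + y + W) := by
    have : Real.log U = Real.log Cm + Real.log X + 6 * Real.log l := by
      rw [eU, Real.log_mul (by positivity) (by positivity), Real.log_mul (by positivity)
        (by positivity), Real.log_pow]
      norm_num
    rw [this]
    linarith
  have hlogS : Real.log (1 + S) ≤ 1 + s := by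
    have e2 : Real.log (1 + S) ≤ Real.log (2 * S) :=
      Real.log_le_log (by linarith) (by linarith)
    rw [Real.log_mul (by norm_num) (by linarith), ← es] at e2
    have := Real.log_two_lt_d9
    linarith
  have hlogZ : Real.log Z ≤ C3 + (1 + s) + (Cm + (C3 + 99 + 7 * h) + 6 * (7 + y + W)) := by
    have : Real.log Z = Real.log C3 + Real.log (1 + S) + Real.log U := by
      rw [eZ, Real.log_mul (by positivity) (by positivity), Real.log_mul (by positivity)
        (by positivity)]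
    rw [this]
    linarith
  have hlW : 1000 * y * W = l := by rw [el, eC5]
  have hyW : y * 2 ≤ y * W := mul_le_mul_of_nonneg_left W2 (by linarith)
  have hyW' : 3 * W ≤ y * W := mul_le_mul_of_nonneg_right y3 (by linarith)
  refine ⟨h1, s1, X1, by linarith, U1, hZ1, ?_, ?_, ?_, ?_⟩
  · refine hlogX.trans ?_
    rw [← hlW]
    have : h ≤ W := by rw [eW]; linarith
    have e3 : C3 ≤ y := by rw [ey]; linarith
    nlinarith
  · refine hlogZ.trans ?_
    rw [← hlW]
    have : h ≤ W := by rw [eW]; linarith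
    have : s ≤ W := by rw [eW]; linarith
    have e3 : C3 ≤ y := by rw [ey]; linarith
    have e4 : Cm ≤ y := by rw [ey]; linarith
    nlinarith
  · have e5 : C3 * (100 * h + h) = 101 * (C3 * h) := by ring
    rw [e5]
    linarith
  · have e6 : h ≤ C3 * h := le_mul_of_one_le_left (by linarith) hC3
    linarith

theorem st_CM (hMAIN : ST_MAIN) (hCMl : ST_CMl) (hCMs : ST_CMs) : ST_CM := by
  intro c0 C3 hc0 hC3
  obtain ⟨Cm, hCm, hmain⟩ := hMAIN 27 c0 hc0
  set y : ℝ := C3 + Cm + 1 with ey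
  set C5 : ℝ := 1000 * y with eC5
  have y3 : 3 ≤ y := by rw [ey]; linarith
  have C51 : 3000 ≤ C5 := by rw [eC5]; linarith
  refine ⟨100 * Cm ^ 2 * C3 * C5 ^ 8 + 2 + 125000 * (Cm * C3 * C5 ^ 6), ?_, ?_⟩
  · have : 0 ≤ 100 * Cm ^ 2 * C3 * C5 ^ 8 := by positivity
    have : 0 ≤ 125000 * (Cm * C3 * C5 ^ 6) := by positivity
    linarith
  intro K _ _ hK σ hσ π hπ ε1 ε2 α n0 lam H S ν hH hS hν hνH hN hAl hGood G hG hG1 hG30 hlam
  set h : ℝ := Real.log H with eh
  set s : ℝ := Real.log S with es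
  set W : ℝ := h + s with eW
  set X : ℝ := C3 * ν * (100 * h) * h ^ 2 with eX
  set l : ℝ := C5 * W with el
  set U : ℝ := Cm * X * l ^ 6 with eU
  obtain ⟨h1, s1, X1, l1, U1, Z1, hlX, hlZ, hU6, hhU⟩ := cm_num C3 Cm hC3 hCm H S ν h s W y C5 X l
    U (C3 * (1 + S) * U) hH hS hν hνH eh es eW ey eC5 eX el eU rfl
  clear_value U l X W C5 y
  have W1 : 1 ≤ W := by rw [eW]; linarith
  have hhW : h ≤ W := by rw [eW]; linarith
  have hν0 : 0 < ν := by linarith
  have hXW : X ≤ 100 * C3 * ν * W ^ 3 := by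
    have e1 : X = 100 * C3 * ν * h ^ 3 := by rw [eX]; ring
    rw [e1]
    have : h ^ 3 ≤ W ^ 3 := pow_le_pow_left₀ (by linarith) hhW 3
    exact mul_le_mul_of_nonneg_left this (by positivity)
  have hC5 : 0 < C5 := by linarith
  have hUW : U ≤ 100 * (Cm * C3 * C5 ^ 6) * ν * W ^ 11 := by
    have e2 : U ≤ Cm * (100 * C3 * ν * W ^ 3) * (C5 * W) ^ 6 := by
      rw [eU, el]
      gcongr
    have e3 : Cm * (100 * C3 * ν * W ^ 3) * (C5 * W) ^ 6 =
        100 * (Cm * C3 * C5 ^ 6) * ν * W ^ 9 := by ring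
    rw [e3] at e2
    refine e2.trans ?_
    have : W ^ 9 ≤ W ^ 11 := pow_le_pow_right₀ W1 (by norm_num)
    exact mul_le_mul_of_nonneg_left this (by positivity)
  have hUl : Cm * U * l ^ 2 ≤ 100 * Cm ^ 2 * C3 * C5 ^ 8 * ν * W ^ 11 := by
    have e2 : Cm * U * l ^ 2 ≤ Cm * (Cm * (100 * C3 * ν * W ^ 3) * (C5 * W) ^ 6) *
        (C5 * W) ^ 2 := by
      rw [eU, el]
      gcongr
    refine e2.trans (le_of_eq ?_)
    ring
  have hνW : 1 ≤ ν * W ^ 11 := one_le_mul_of_one_le_of_one_le hν (one_le_pow₀ W1)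
  by_cases hcase : nrm σ π ε1 ε2 (100 * h) lam ![1, 0, 0] ≤ U
  · -- Liouville
    have hgel : gel π ε1 ε2 ![1, 0, 0] = (π : K) := by
      simp [gel]
    have h4 : 4 * (∑ i, |Real.log ‖σ i (π : K)‖|) ≤ U := by
      refine le_trans ?_ hcase
      unfold nrm
      rw [hgel]
      have e4 : 0 ≤ 100 * h * |(((![1, 0, 0] : Fin 3 → ℤ) 0 : ℤ) : ℝ)| := by positivity
      have e5 := norm_nonneg (∑ i, (((![1, 0, 0] : Fin 3 → ℤ) i : ℤ) : ℂ) * lam i)
      linarith
    have h5 := hCMl K hK σ hσ π hπ α n0 H hH hN hAl G hG hG1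
    refine h5.trans ?_
    have h6 : 1000 * ((∑ i, |Real.log ‖σ i (π : K)‖|) + Real.log H) ≤ 1250 * U := by
      rw [← eh]
      linarith
    refine h6.trans ?_
    have h7 : 0 ≤ 100 * Cm ^ 2 * C3 * C5 ^ 8 + 2 := by positivity
    calc 1250 * U ≤ 1250 * (100 * (Cm * C3 * C5 ^ 6) * ν * W ^ 11) := by linarith
      _ = 0 + 125000 * (Cm * C3 * C5 ^ 6) * (ν * W ^ 11) := by ring
      _ ≤ (100 * Cm ^ 2 * C3 * C5 ^ 8 + 2) * (ν * W ^ 11) +
          125000 * (Cm * C3 * C5 ^ 6) * (ν * W ^ 11) := by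
            have : 0 ≤ (100 * Cm ^ 2 * C3 * C5 ^ 8 + 2) * (ν * W ^ 11) := by positivity
            linarith
      _ = _ := by ring
  · push Not at hcase
    subst hG
    obtain ⟨L, iL, iN, φ, γ, hfr, hSz, hiff⟩ := hCMs K hK σ hσ π hπ ε1 ε2 α n0 lam H S ν c0 C3 U
      hH hS hc0 hC3 hN hAl hGood hG1 hG30 hcase
    have hP3 := hGood.P3 (U / 6) hU6
    rw [← eX] at hP3
    have hP4 := hGood.P4 U (by linarith)
    have hset : {p : Fin 3 → ℤ | nrm σ π ε1 ε2 (100 * h) lam p ≤ U ∧ ∏ i, γ i ^ (p i) = 1} =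
        {p : Fin 3 → ℤ | nrm σ π ε1 ε2 (100 * h) lam p ≤ U ∧
          (((σ 0 α - σ 1 α) / (σ 0 α - σ 2 α)) ^ (p 0) *
            (σ 1 (gel π ε1 ε2 p) / σ 2 (gel π ε1 ε2 p))) ^ 2 = 1} := by
      ext p
      simp only [Set.mem_ofPred_eq]
      rw [hiff p]
    have hM := hmain L hfr φ γ lam (nrm σ π ε1 ε2 (100 * h) lam) X l U (C3 * (1 + S) * U)
      X1 l1 Z1 eU hlX hlZ hSz hP3 (by rw [hset]; exact hP4)
    have hGpos : 0 < ‖(σ 0 α - σ 1 α) / (σ 0 α - σ 2 α) * (σ 1 (π : K) / σ 2 (π : K)) - 1‖ := by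
      rw [norm_pos_iff]
      exact sub_ne_zero.mpr hG1
    have h8 := hM.trans hlam
    have h9 : -(Cm * U * l ^ 2) ≤ Real.log (4 *
        ‖(σ 0 α - σ 1 α) / (σ 0 α - σ 2 α) * (σ 1 (π : K) / σ 2 (π : K)) - 1‖) := by
      rw [Real.le_log_iff_exp_le (by positivity)]
      exact h8
    rw [Real.log_mul (by norm_num) hGpos.ne'] at h9
    have hlog4 : Real.log 4 ≤ 2 := by
      have e7 : (4 : ℝ) = 2 ^ 2 := by norm_num
      rw [e7, Real.log_pow]
      have := Real.log_two_lt_d9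
      norm_num
      linarith
    have h10 : 0 ≤ 125000 * (Cm * C3 * C5 ^ 6) * (ν * W ^ 11) := by positivity
    calc -Real.log ‖(σ 0 α - σ 1 α) / (σ 0 α - σ 2 α) * (σ 1 (π : K) / σ 2 (π : K)) - 1‖
        ≤ Cm * U * l ^ 2 + Real.log 4 := by linarith
      _ ≤ 100 * Cm ^ 2 * C3 * C5 ^ 8 * ν * W ^ 11 + 2 * (ν * W ^ 11) := by linarith
      _ ≤ 100 * Cm ^ 2 * C3 * C5 ^ 8 * ν * W ^ 11 + 2 * (ν * W ^ 11) +
          125000 * (Cm * C3 * C5 ^ 6) * (ν * W ^ 11) := by linarith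
      _ = _ := by ring

end Pool.Helper99.BK
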